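import Pool.Agent.L0h29.AL.ArtDefs5

/-!
# Project AL, part 4, module EMB: the Artin monoid of a finite Coxeter group embeds in the Artin group
-/

set_option autoImplicit false

namespace Pool.Agent.L0h37.AL

open Pool.Agent.L0h29.AL Pool.Agent.K7.H20.AW Pool.Agent.K7.H87.FJ6 Pool.Agent.Helper741

universe u

section
variable {B : Type u} (M : CoxeterMatrix B)

theorem pm_nil : pm M [] = 1 := map_one _

theorem pm_append (l l' : List B) : pm M (l ++ l') = pm M l * pm M l' := by
  unfold pm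
  rw [FreeMonoid.ofList_append, map_mul]

theorem pm_cons (b : B) (l : List B) : pm M (b :: l) = pm M [b] * pm M l := pm_append M [b] l

theorem pm_surj (x : AP M) : ∃ l, pm M l = x := by
  obtain ⟨l, hl⟩ := PresentedMonoid.surjective_mk (rels := APr M) x
  exact ⟨FreeMonoid.toList l, by rw [pm, FreeMonoid.ofList_toList, hl]⟩

theorem pm_braid (i j : B) : pm M (awp (M i j) i j) = pm M (awp (M i j) j i) :=
  Quotient.sound (s := (conGen (APr M)).toSetoid) (ConGen.Rel.of _ _ ⟨i, j, rfl, rfl⟩)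

theorem map_pm {G : Type*} [Monoid G] (ι : AP M →* G) (l : List B) :
    ι (pm M l) = (l.map fun b => ι (pm M [b])).prod := by
  induction l with
  | nil => rw [pm_nil, map_one]; rfl
  | cons b l ih => rw [pm_cons, map_mul, ih, List.map_cons, List.prod_cons]

theorem awp_prod {G : Type*} [Monoid G] (f : B → G) (k : ℕ) (i j : B) :
    ((awp k i j).map f).prod = alt (f i) (f j) k := by
  induction k generalizing i j with
  | zero => simp [awp]
  | succ k ih => rw [awp, List.map_cons, List.prod_cons, ih, alt_succ]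

end

theorem EMB (hL : S_LCN.{u}) (hR : S_RCN.{u}) (hF : S_FRC.{u}) (hD : S_DEL.{u}) : S_EMB.{u} := by
  intro B _ _ M hfin l l' hll
  obtain ⟨d, σ, v, hσ, h1, h2⟩ := hD B M hfin
  set Δ := pm M d with hΔ
  have h1' : ∀ b, pm M [b] * Δ = Δ * pm M [σ b] := fun b => by
    rw [← pm_cons, h1, pm_append]
  have h2' : ∀ b, pm M [b] * pm M (v b) = Δ := fun b => by
    rw [← pm_cons, ← h2]
  have hcen1 : ∀ b, (Δ * Δ) * pm M [b] = pm M [b] * (Δ * Δ) := by
    intro b
    rw [← mul_assoc (pm M [b]), h1', mul_assoc Δ (pm M [σ b]), h1', hσ, mul_assoc]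
  have hcen : ∀ x : AP M, (Δ * Δ) * x = x * (Δ * Δ) := by
    intro x
    obtain ⟨l, rfl⟩ := pm_surj M x
    induction l with
    | nil => rw [pm_nil, one_mul, mul_one]
    | cons b l ih => rw [pm_cons, ← mul_assoc, hcen1, mul_assoc, ih, mul_assoc]
  have hcenp : ∀ (n : ℕ) (x : AP M), (Δ * Δ) ^ n * x = x * (Δ * Δ) ^ n := fun n x =>
    (Commute.pow_left (show Commute (Δ * Δ) x from hcen x) n).eq
  have hex : ∀ x : AP M, ∃ (n : ℕ) (y : AP M), x * y = (Δ * Δ) ^ n := by
    intro x
    obtain ⟨l, rfl⟩ := pm_surj M x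
    induction l with
    | nil => exact ⟨0, 1, by rw [pm_nil, one_mul, pow_zero]⟩
    | cons b l ih =>
      obtain ⟨n, y, hy⟩ := ih
      refine ⟨n + 1, y * (pm M (v b) * Δ), ?_⟩
      calc pm M (b :: l) * (y * (pm M (v b) * Δ)) =
          pm M [b] * (pm M l * y) * (pm M (v b) * Δ) := by rw [pm_cons]; simp only [mul_assoc]
        _ = (Δ * Δ) ^ n * (pm M [b] * pm M (v b) * Δ) := by
            rw [hy, ← hcenp]; simp only [mul_assoc]
        _ = (Δ * Δ) ^ (n + 1) := by rw [h2', pow_succ]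
  obtain ⟨G, _, ι, hι⟩ := hF (AP M) (Δ * Δ) hcen (hL B M hfin) (hR B M hfin) hex
  have hbr : ∀ i j, alt (ι (pm M [i])) (ι (pm M [j])) (M i j) =
      alt (ι (pm M [j])) (ι (pm M [i])) (M i j) := by
    intro i j
    rw [← awp_prod (fun b => ι (pm M [b])), ← awp_prod (fun b => ι (pm M [b])), ← map_pm, ← map_pm,
      pm_braid]
  let ψ : Art M →* G := Sh.lift (fun b => ι (pm M [b])) hbr (fun i => pow_zero _)
  have hψ : ∀ b, ψ (g M b) = ι (pm M [b]) := fun b => Sh.lift_gen _ _ _ b
  apply hι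
  rw [map_pm, map_pm]
  have h3 := congrArg ψ hll
  rw [map_list_prod, map_list_prod, List.map_map, List.map_map] at h3
  have h4 : (⇑ψ ∘ g M) = fun b => ι (pm M [b]) := funext hψ
  rwa [h4] at h3

end Pool.Agent.L0h37.AL
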