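import Pool.Agent.L0h29.AL.ArtDefs5

/-!
# Project AL, part 4, module FRC: the group of fractions with respect to a central element
-/

set_option autoImplicit false

namespace Pool.Agent.L0h37.AL

open Pool.Agent.L0h29.AL

universe u

theorem FRC : S_FRC.{u} := by
  intro Q _ c hc hl hr hy
  have hcp : ∀ (k : ℕ) (x : Q), c ^ k * x = x * c ^ k := fun k x =>
    (Commute.pow_left (show Commute c x from hc x) k).eq
  let con : Con (Q × Multiplicative ℕ) :=
    { r := fun a b => a.1 * c ^ b.2.toAdd = b.1 * c ^ a.2.toAdd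
      iseqv :=
        { refl := fun _ => rfl
          symm := fun h => h.symm
          trans := by
            rintro ⟨x, k⟩ ⟨y, l⟩ ⟨z, m⟩ h1 h2
            simp only at h1 h2 ⊢
            apply hr (c ^ l.toAdd)
            calc x * c ^ m.toAdd * c ^ l.toAdd = (x * c ^ l.toAdd) * c ^ m.toAdd := by
                  rw [mul_assoc, mul_assoc, hcp]
              _ = (y * c ^ m.toAdd) * c ^ k.toAdd := by
                  rw [h1, mul_assoc, mul_assoc, hcp]
              _ = z * c ^ k.toAdd * c ^ l.toAdd := by
                  rw [h2, mul_assoc, mul_assoc, hcp] }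
      mul' := by
        rintro ⟨x, k⟩ ⟨x', k'⟩ ⟨y, l⟩ ⟨y', l'⟩ h1 h2
        simp only [Prod.mk_mul_mk, toAdd_mul] at h1 h2 ⊢
        calc x * y * c ^ (k'.toAdd + l'.toAdd) = (x * c ^ k'.toAdd) * (y * c ^ l'.toAdd) := by
              rw [pow_add, mul_assoc, mul_assoc, ← mul_assoc y, ← hcp k'.toAdd y, mul_assoc]
          _ = x' * y' * c ^ (k.toAdd + l.toAdd) := by
              rw [h1, h2, pow_add, mul_assoc, mul_assoc, ← mul_assoc y', ← hcp k.toAdd y',
                mul_assoc] }
  have hinv : ∀ a : con.Quotient, ∃ b : con.Quotient, b * a = 1 := by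
    intro a
    induction a using Con.induction_on with
    | H a =>
      obtain ⟨x, k⟩ := a
      obtain ⟨n, y, hxy⟩ := hy x
      have hyx : y * x = c ^ n := by
        apply hl x
        rw [← mul_assoc, hxy, hcp]
      refine ⟨((y * c ^ k.toAdd, Multiplicative.ofAdd n) : Q × Multiplicative ℕ), ?_⟩
      rw [← Con.coe_mul, ← Con.coe_one, Con.eq]
      change (y * c ^ k.toAdd * x) * c ^ 0 = 1 * c ^ (n + k.toAdd)
      rw [pow_zero, mul_one, one_mul, mul_assoc, hcp, ← mul_assoc, hyx, pow_add]
  let G : Group con.Quotient :=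
    { (inferInstance : Monoid con.Quotient) with
      inv := fun a => Classical.choose (hinv a)
      inv_mul_cancel := fun a => Classical.choose_spec (hinv a) }
  refine ⟨con.Quotient, G,
    { toFun := fun x => ((x, 1) : Q × Multiplicative ℕ)
      map_one' := rfl
      map_mul' := fun x y => rfl }, ?_⟩
  intro x y h
  have h1 : (((x, 1) : Q × Multiplicative ℕ) : con.Quotient) =
      (((y, 1) : Q × Multiplicative ℕ) : con.Quotient) := h
  rw [Con.eq] at h1
  have h2 : x * c ^ 0 = y * c ^ 0 := h1
  simpa using h2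

end Pool.Agent.L0h37.AL
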