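import Pool.Agent.L0h29.AL.ArtDefs5

/-!
# Project AL, part 4, module MEE: the prefix order of a Coxeter group has meets
-/

set_option autoImplicit false

namespace Pool.Agent.L0h37.AL

open Pool.Agent.L0h29.AL Pool.Agent.Helper741 CoxeterSystem

universe u v

variable {B : Type u} {M : CoxeterMatrix B} {W : Type v} [Group W] (cs : CoxeterSystem M W)

theorem Pl_refl (u : W) : Pl cs u u := by
  unfold Pl
  rw [inv_mul_cancel, cs.length_one, add_zero]

theorem Pl_one (u : W) : Pl cs 1 u := by
  unfold Pl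
  rw [cs.length_one, inv_one, one_mul, zero_add]

variable {cs}

theorem Pl_trans {u v w : W} (h1 : Pl cs u v) (h2 : Pl cs v w) : Pl cs u w := by
  unfold Pl at *
  have h3 := cs.length_mul_le (u⁻¹ * v) (v⁻¹ * w)
  have h4 := cs.length_mul_le u (u⁻¹ * w)
  rw [mul_assoc, mul_inv_cancel_left] at h3
  rw [mul_inv_cancel_left] at h4
  omega

/-- a simple reflection is a prefix of `w` if and only if it is a left descent -/
theorem Pl_simple {i : B} {w : W} : Pl cs (cs.simple i) w ↔
    cs.length (cs.simple i * w) < cs.length w := by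
  unfold Pl
  rw [cs.inv_simple, cs.length_simple]
  rcases cs.length_simple_mul w i with h | h <;> omega

theorem Pl_strip {i : B} {x a : W} (hx : Pl cs (cs.simple i) x) (ha : Pl cs (cs.simple i) a) :
    Pl cs x a ↔ Pl cs (cs.simple i * x) (cs.simple i * a) := by
  unfold Pl at *
  rw [cs.inv_simple, cs.length_simple] at hx ha
  have h1 : (cs.simple i * x)⁻¹ * (cs.simple i * a) = x⁻¹ * a := by
    rw [mul_inv_rev, cs.inv_simple, mul_assoc, cs.simple_mul_simple_cancel_left]
  rw [h1]
  omega

theorem exists_simple {x : W} (h : x ≠ 1) : ∃ i, Pl cs (cs.simple i) x := by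
  obtain ⟨i, hi⟩ := cs.exists_leftDescent_of_ne_one h
  exact ⟨i, Pl_simple.2 hi⟩

/-- extending a prefix of `s a` by `s` -/
theorem Pl_cons {i : B} {m a : W} (ha : Pl cs (cs.simple i) a) (hm : Pl cs m (cs.simple i * a)) :
    Pl cs (cs.simple i) (cs.simple i * m) ∧ Pl cs (cs.simple i * m) a := by
  have ha' := ha
  unfold Pl at ha' hm
  rw [cs.inv_simple, cs.length_simple] at ha'
  have h1 : (cs.simple i * m)⁻¹ * a = m⁻¹ * (cs.simple i * a) := by
    rw [mul_inv_rev, cs.inv_simple, mul_assoc]
  have h2 := cs.length_mul_le (cs.simple i * m) ((cs.simple i * m)⁻¹ * a)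
  rw [mul_inv_cancel_left, h1] at h2
  have h3 : Pl cs (cs.simple i) (cs.simple i * m) := by
    unfold Pl
    rw [cs.inv_simple, cs.length_simple, cs.simple_mul_simple_cancel_left]
    rcases cs.length_simple_mul m i with h | h <;> omega
  refine ⟨h3, ?_⟩
  rw [Pl_strip h3 ha, cs.simple_mul_simple_cancel_left]
  unfold Pl
  exact hm

theorem front [Fintype B] [DecidableEq B] {i j : B} (hij : i ≠ j) {a : W}
    (hi : Pl cs (cs.simple i) a) (hj : Pl cs (cs.simple j) a) :
    M i j ≠ 0 ∧ Pl cs (cs.wordProd (aw i j (M i j))) a := by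
  rw [Pl_simple] at hi hj
  refine ⟨?_, ?_⟩
  · intro h0
    obtain ⟨u, hu1, hu2⟩ := exists_aw_front cs a (cs.length a + 1) i j hij (Or.inl h0) hi hj
    have h2 := hu1.eq
    rw [hu2, List.length_append, aw_length] at h2
    omega
  · obtain ⟨u, hu1, hu2⟩ := exists_aw_front cs a (M i j) i j hij (Or.inr le_rfl) hi hj
    unfold Pl
    have h1 : (cs.wordProd (aw i j (M i j)))⁻¹ * a = cs.wordProd u := by
      rw [← hu2, cs.wordProd_append, inv_mul_cancel_left]
    have h2 : cs.IsReduced (aw i j (M i j)) := by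
      have := hu1.take (M i j)
      rwa [List.take_append_of_le_length (by simp), List.take_of_length_le (by simp)] at this
    have h3 : cs.IsReduced u := by simpa using hu1.drop (M i j)
    rw [h1, h2.eq, h3.eq, ← List.length_append, ← hu1.eq, hu2]

theorem wordProd_aw_comm (i j : B) : cs.wordProd (aw i j (M i j)) = cs.wordProd (aw j i (M i j)) := by
  have h1 : cs.wordProd (aw i j (M i j)) = alt (cs.simple i) (cs.simple j) (M i j) := by
    rw [CoxeterSystem.wordProd, aw_prod]
  have h2 : cs.wordProd (aw j i (M i j)) = alt (cs.simple j) (cs.simple i) (M i j) := by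
    rw [CoxeterSystem.wordProd, aw_prod]
  rw [h1, h2]
  exact alt_comm_of_pow (cs.simple_mul_simple_self i) (cs.simple_mul_simple_self j)
    (cs.simple_mul_simple_pow i j)

theorem front_desc [Fintype B] [DecidableEq B] {i j : B} (hij : i ≠ j) (h0 : M i j ≠ 0) :
    Pl cs (cs.simple i) (cs.wordProd (aw i j (M i j))) := by
  have h1 := isReduced_aw cs hij (k := M i j) (Or.inr le_rfl)
  obtain ⟨m, hm⟩ : ∃ m, M i j = m + 1 := ⟨M i j - 1, by omega⟩
  rw [Pl_simple]
  have h2 := h1.eq
  rw [hm, aw_succ] at h2 ⊢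
  rw [cs.wordProd_cons, cs.simple_mul_simple_cancel_left]
  rw [cs.wordProd_cons, List.length_cons] at h2
  have h3 := cs.length_wordProd_le (aw j i m)
  omega

theorem MEE : S_MEE.{u, v} := by
  intro B _ _ M W _ cs a b
  induction hn : cs.length a using Nat.strong_induction_on generalizing a b with
  | _ n ih =>
  -- the largest common prefix with a given first letter
  have hs : ∀ i, Pl cs (cs.simple i) a → Pl cs (cs.simple i) b → ∃ m, Pl cs m a ∧ Pl cs m b ∧
      Pl cs (cs.simple i) m ∧
      ∀ x, Pl cs (cs.simple i) x → Pl cs x a → Pl cs x b → Pl cs x m := by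
    intro i ha hb
    obtain ⟨m, hma, hmb, hm⟩ := ih (cs.length (cs.simple i * a)) (by
      rw [Pl_simple] at ha
      omega) (cs.simple i * a) (cs.simple i * b) rfl
    obtain ⟨h1, h2⟩ := Pl_cons ha hma
    obtain ⟨-, h3⟩ := Pl_cons hb hmb
    refine ⟨cs.simple i * m, h2, h3, h1, fun x hx hxa hxb => ?_⟩
    rw [Pl_strip hx h1, cs.simple_mul_simple_cancel_left]
    exact hm _ ((Pl_strip hx ha).1 hxa) ((Pl_strip hx hb).1 hxb)
  by_cases hex : ∃ i, Pl cs (cs.simple i) a ∧ Pl cs (cs.simple i) b
  · obtain ⟨i, hia, hib⟩ := hex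
    obtain ⟨m, hma, hmb, him, hm⟩ := hs i hia hib
    refine ⟨m, hma, hmb, fun x hxa hxb => ?_⟩
    by_cases hx : x = 1
    · rw [hx]
      exact Pl_one cs m
    · obtain ⟨j, hj⟩ := exists_simple (cs := cs) hx
      by_cases hij : i = j
      · subst hij
        exact hm x hj hxa hxb
      · have hja := Pl_trans hj hxa
        have hjb := Pl_trans hj hxb
        obtain ⟨m', hm'a, hm'b, hjm', hm'⟩ := hs j hja hjb
        obtain ⟨h0, hfa⟩ := front hij hia hja
        obtain ⟨-, hfb⟩ := front hij hib hjb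
        have h1 : Pl cs (cs.simple i) (cs.wordProd (aw i j (M i j))) := front_desc hij h0
        have h2 : Pl cs (cs.simple j) (cs.wordProd (aw i j (M i j))) := by
          rw [wordProd_aw_comm, ← M.symmetric j i]
          exact front_desc (Ne.symm hij) (by rwa [M.symmetric j i])
        have h3 := hm' _ h2 hfa hfb
        have h4 : Pl cs m' m := hm m' (Pl_trans h1 h3) hm'a hm'b
        exact Pl_trans (hm' x hj hxa hxb) h4
  · refine ⟨1, Pl_one cs a, Pl_one cs b, fun x hxa hxb => ?_⟩
    by_cases hx : x = 1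
    · rw [hx]
      exact Pl_refl cs 1
    · obtain ⟨i, hi⟩ := exists_simple (cs := cs) hx
      exact absurd ⟨i, Pl_trans hi hxa, Pl_trans hi hxb⟩ hex

end Pool.Agent.L0h37.AL
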