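import Pool.Agent.L0h29.AL.ArtDefs5

/-!
# Project AL, part 4, module SPA: the area in an Artin group of spherical type
-/

set_option autoImplicit false

namespace Pool.Agent.L0h37.AL

open Pool.Agent.L0h29.AL Pool.Agent.K7.H20.AW Pool.Agent.K7.H87.FJ6

universe u

/-! ### functions bounded by `K ^ (K (n + 1))` -/

/-- bounded by `K ^ (K (n + 1))` -/
def Eb (f : ℕ → ℕ) : Prop := ∃ K : ℕ, ∀ n, f n ≤ K ^ (K * (n + 1))

theorem Eb.mono {f f' : ℕ → ℕ} (h : Eb f') (hf : ∀ n, f n ≤ f' n) : Eb f := by
  obtain ⟨K, hK⟩ := h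
  exact ⟨K, fun n => (hf n).trans (hK n)⟩

theorem Eb.large {f : ℕ → ℕ} (h : Eb f) : ∃ K : ℕ, 1 ≤ K ∧ ∀ K', K ≤ K' → ∀ n, f n ≤ K' ^ (K' * (n + 1)) := by
  obtain ⟨K, hK⟩ := h
  refine ⟨K + 1, by omega, fun K' hK' n => (hK n).trans ?_⟩
  calc K ^ (K * (n + 1)) ≤ K' ^ (K * (n + 1)) := Nat.pow_le_pow_left (by omega) _
    _ ≤ K' ^ (K' * (n + 1)) := Nat.pow_le_pow_right (by omega) (Nat.mul_le_mul_right _ (by omega))

theorem Eb.mul {f f' : ℕ → ℕ} (h : Eb f) (h' : Eb f') : Eb fun n => f n * f' n := by
  obtain ⟨K, hK1, hK⟩ := h.large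
  obtain ⟨K', hK'1, hK'⟩ := h'.large
  refine ⟨2 * (K + K'), fun n => ?_⟩
  calc f n * f' n ≤ (K + K') ^ ((K + K') * (n + 1)) * (K + K') ^ ((K + K') * (n + 1)) :=
        Nat.mul_le_mul (hK _ (by omega) n) (hK' _ (by omega) n)
    _ = (K + K') ^ (2 * (K + K') * (n + 1)) := by rw [← pow_add]; congr 1; ring
    _ ≤ (2 * (K + K')) ^ (2 * (K + K') * (n + 1)) := Nat.pow_le_pow_left (by omega) _

theorem Eb.const (c : ℕ) : Eb fun _ => c := by
  refine ⟨c + 1, fun n => ?_⟩
  calc c ≤ (c + 1) ^ 1 := by rw [pow_one]; omega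
    _ ≤ (c + 1) ^ ((c + 1) * (n + 1)) :=
        Nat.pow_le_pow_right (by omega) (Nat.mul_pos (by omega) (by omega))

theorem Eb.add {f f' : ℕ → ℕ} (h : Eb f) (h' : Eb f') : Eb fun n => f n + f' n := by
  obtain ⟨K, hK1, hK⟩ := h.large
  obtain ⟨K', hK'1, hK'⟩ := h'.large
  have h2 : Eb fun n => (K + K') ^ ((K + K') * (n + 1)) := ⟨K + K', fun n => le_rfl⟩
  refine ((Eb.const 2).mul h2).mono fun n => ?_
  have h3 := hK (K + K') (by omega) n
  have h4 := hK' (K + K') (by omega) n
  omega

theorem Eb.id : Eb fun n => n := by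
  refine ⟨2, fun n => ?_⟩
  calc n ≤ 2 ^ n := Nat.lt_two_pow_self.le
    _ ≤ 2 ^ (2 * (n + 1)) := Nat.pow_le_pow_right (by omega) (by omega)

theorem Eb.exp (c d : ℕ) : Eb fun n => c ^ (n * d) := by
  refine ⟨c + d + 1, fun n => ?_⟩
  calc c ^ (n * d) ≤ (c + d + 1) ^ (n * d) := Nat.pow_le_pow_left (by omega) _
    _ ≤ (c + d + 1) ^ ((c + d + 1) * (n + 1)) := by
        apply Nat.pow_le_pow_right (by omega)
        calc n * d = d * n := mul_comm _ _
          _ ≤ (c + d + 1) * (n + 1) := Nat.mul_le_mul (by omega) (by omega)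

/-! ### areas of elements of the free group -/

section
variable {B : Type u} (M : CoxeterMatrix B)

/-- area of an element of the free group -/
def AG (x : FreeGroup B) (N : ℕ) : Prop := ∃ w, FreeGroup.mk w = x ∧ Area M w N

/-- the element of the free group given by a positive word -/
def P (l : List B) : FreeGroup B := FreeGroup.mk (l.map fun x => (x, true))

variable {M}

theorem P_nil : P ([] : List B) = 1 := rfl

theorem P_append (l l' : List B) : P (l ++ l') = P l * P l' := by
  unfold P
  rw [List.map_append, FreeGroup.mul_mk]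

theorem P_cons (b : B) (l : List B) : P (b :: l) = P [b] * P l := P_append [b] l

theorem mk_inw (w : List (B × Bool)) : FreeGroup.mk (inw w) = (FreeGroup.mk w)⁻¹ := by
  rw [FreeGroup.inv_mk]
  rfl

theorem mk_append (w w' : List (B × Bool)) :
    FreeGroup.mk (w ++ w') = FreeGroup.mk w * FreeGroup.mk w' := by rw [FreeGroup.mul_mk]

theorem P_rep (d : List B) (k : ℕ) : P (List.replicate k d).flatten = P d ^ k := by
  induction k with
  | zero => rfl
  | succ k ih => rw [List.replicate_succ, List.flatten_cons, P_append, ih, pow_succ']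

theorem rep_len (d : List B) (k : ℕ) : (List.replicate k d).flatten.length = k * d.length := by
  simp

theorem awp_aw (k : ℕ) (i j : B) : (awp k i j).map (fun x => (x, true)) = aw k i j := by
  induction k generalizing i j with
  | zero => rfl
  | succ k ih => rw [awp, List.map_cons, ih, aw]

variable [Fintype B] [DecidableEq B]

section
variable (hA : S_ARE.{u})
include hA

theorem AG_mono {x : FreeGroup B} {N N' : ℕ} (hx : AG M x N) (h : N ≤ N') : AG M x N' := by
  obtain ⟨w, hw, ha⟩ := hx
  exact ⟨w, hw, (hA B M).2.1 w N N' h ha⟩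

theorem AG_mul {x y : FreeGroup B} {N N' : ℕ} (hx : AG M x N) (hy : AG M y N') :
    AG M (x * y) (N + N') := by
  obtain ⟨w, rfl, ha⟩ := hx
  obtain ⟨w', rfl, ha'⟩ := hy
  exact ⟨w ++ w', mk_append _ _, (hA B M).2.2.2.1 w w' N N' ha ha'⟩

theorem AG_inv {x : FreeGroup B} {N : ℕ} (hx : AG M x N) : AG M x⁻¹ N := by
  obtain ⟨w, rfl, ha⟩ := hx
  exact ⟨inw w, mk_inw _, (hA B M).2.2.2.2.1 w N ha⟩

theorem AG_conj (u : List (B × Bool)) {x : FreeGroup B} {N : ℕ} (hx : AG M x N) :
    AG M (FreeGroup.mk u * x * (FreeGroup.mk u)⁻¹) (N + u.length) := by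
  obtain ⟨w, rfl, ha⟩ := hx
  refine ⟨u ++ w ++ inw u, ?_, (hA B M).2.2.2.2.2.1 u w N ha⟩
  rw [mk_append, mk_append, mk_inw]

theorem AG_conjP (l : List B) {x : FreeGroup B} {N : ℕ} (hx : AG M x N) :
    AG M (P l * x * (P l)⁻¹) (N + l.length) := by
  have := AG_conj hA (l.map fun x => (x, true)) hx
  rwa [List.length_map] at this

theorem AG_area {w : List (B × Bool)} {N : ℕ} (hx : AG M (FreeGroup.mk w) N) : Area M w N := by
  obtain ⟨w', hw, ha⟩ := hx
  exact (hA B M).2.2.1 w' w N hw ha

theorem AG_move {l l' : List B} (h : Mv M l l') : AG M (P l * (P l')⁻¹) (l.length + 1) := by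
  obtain ⟨a, b, i, j, rfl, rfl⟩ := h
  have h1 := (hA B M).2.2.2.2.2.2 a b i j
  refine ⟨_, ?_, (hA B M).2.1 _ _ _ ?_ h1⟩
  · rw [mk_append _ (inw _), mk_inw]
    simp only [P, List.map_append, awp_aw]
  · simp only [List.length_append]
    omega

end

omit [Fintype B] [DecidableEq B] in
theorem AG_one : AG M 1 0 := ⟨[], rfl, [], by simp, by simp, rfl⟩

theorem AG_chain (hA : S_ARE.{u}) (L : ℕ) : ∀ (ch : List (List B)) (l l' : List B),
    ch.head? = some l → ch.getLast? = some l' → ch.IsChain (Mv M) → (∀ x ∈ ch, x.length = L) →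
    AG M (P l * (P l')⁻¹) (ch.length * (L + 1)) := by
  intro ch
  induction ch with
  | nil => intro l l' h; simp at h
  | cons a ch ih =>
    intro l l' h1 h2 h3 h4
    rw [List.head?_cons, Option.some.injEq] at h1
    subst h1
    rcases ch with _ | ⟨b, ch⟩
    · simp only [List.getLast?_singleton, Option.some.injEq] at h2
      subst h2
      rw [mul_inv_cancel]
      exact AG_mono hA AG_one (Nat.zero_le _)
    · have h5 : (b :: ch).getLast? = some l' := by
        rw [List.getLast?_cons_cons] at h2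
        exact h2
      rw [List.isChain_cons_cons] at h3
      have h6 := ih b l' rfl h5 h3.2 fun x hx => h4 x (List.mem_cons_of_mem _ hx)
      have h7 := AG_move hA h3.1
      rw [h4 a (by simp)] at h7
      have h8 := AG_mul hA h7 h6
      have h9 : P a * (P b)⁻¹ * (P b * (P l')⁻¹) = P a * (P l')⁻¹ := by group
      rw [h9] at h8
      refine AG_mono hA h8 (le_of_eq ?_)
      simp only [List.length_cons]
      ring

theorem AG_pm (hA : S_ARE.{u}) (hC : S_CHN.{u}) {l l' : List B} (h : pm M l = pm M l') :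
    AG M (P l * (P l')⁻¹) ((Fintype.card B ^ l.length + 1) * (l.length + 1)) := by
  obtain ⟨ch, h1, h2, h3, h4, h5⟩ := hC B M l l' h
  exact AG_mono hA (AG_chain hA l.length ch l l' h1 h2 h4 h5) (Nat.mul_le_mul_right _ h3)

/-! ### commuting with the powers of the Garside element -/

theorem AG_E (hA : S_ARE.{u}) (d : List B) (σ : B → B) (e : ℕ)
    (he : ∀ b, AG M (P d * P [b] * (P d)⁻¹ * (P [σ b])⁻¹) e) : ∀ (k : ℕ) (b : B),
    AG M (P d ^ k * P [b] * (P d ^ k)⁻¹ * (P [σ^[k] b])⁻¹) (k * (e + k * d.length)) := by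
  intro k
  induction k with
  | zero =>
    intro b
    have : P d ^ 0 * P [b] * (P d ^ 0)⁻¹ * (P [σ^[0] b])⁻¹ = 1 := by simp
    rw [this]
    exact AG_mono hA AG_one (Nat.zero_le _)
  | succ k ih =>
    intro b
    have h1 := AG_conjP hA (List.replicate k d).flatten (he b)
    rw [P_rep, rep_len] at h1
    have h2 := AG_mul hA h1 (ih (σ b))
    rw [← Function.iterate_succ_apply] at h2
    have h3 : P d ^ k * (P d * P [b] * (P d)⁻¹ * (P [σ b])⁻¹) * (P d ^ k)⁻¹ *
        (P d ^ k * P [σ b] * (P d ^ k)⁻¹ * (P [σ^[k + 1] b])⁻¹) =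
        P d ^ (k + 1) * P [b] * (P d ^ (k + 1))⁻¹ * (P [σ^[k + 1] b])⁻¹ := by
      rw [pow_succ]
      generalize P d ^ k = X
      group
    rw [h3] at h2
    refine AG_mono hA h2 ?_
    have h4 : (k + 1) * (e + (k + 1) * d.length) =
      e + k * d.length + k * (e + k * d.length) + (k + 1) * d.length := by ring
    rw [h4]
    exact Nat.le_add_right _ _

theorem AG_V (hA : S_ARE.{u}) (x : FreeGroup B) (τ : B → B) (E : ℕ)
    (hE : ∀ b, AG M (x * P [b] * x⁻¹ * (P [τ b])⁻¹) E) : ∀ V : List B,
    AG M (x * P V * x⁻¹ * (P (V.map τ))⁻¹) (V.length * (E + 1)) := by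
  intro V
  induction V with
  | nil =>
    have : x * P [] * x⁻¹ * (P (([] : List B).map τ))⁻¹ = 1 := by
      rw [List.map_nil, P_nil]
      group
    rw [this]
    exact AG_mono hA AG_one (Nat.zero_le _)
  | cons b V ih =>
    have h1 := AG_conjP hA [τ b] ih
    have h2 := AG_mul hA (hE b) h1
    have h3 : x * P [b] * x⁻¹ * (P [τ b])⁻¹ * (P [τ b] * (x * P V * x⁻¹ * (P (V.map τ))⁻¹) *
        (P [τ b])⁻¹) = x * P (b :: V) * x⁻¹ * (P ((b :: V).map τ))⁻¹ := by
      rw [List.map_cons, P_cons b V, P_cons (τ b) (V.map τ)]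
      group
    rw [h3] at h2
    refine AG_mono hA h2 (le_of_eq ?_)
    simp only [List.length_cons, List.length_nil]
    ring

theorem AG_mulE (hA : S_ARE.{u}) (x : FreeGroup B) {w : List (B × Bool)} {N : ℕ}
    (h : AG M x N) (h1 : x = FreeGroup.mk w) : lval M w = 1 := by
  subst h1
  exact (hA B M).1 w N (AG_area hA h)

end

theorem SPA (hA : S_ARE.{u}) (hC : S_CHN.{u}) (hE : S_EMB.{u}) (hD : S_DEL.{u}) :
    S_SPA.{u} := by
  intro B _ _ M hfin
  obtain ⟨d, σ, v, hσ, h1, h2⟩ := hD B M hfin
  -- constants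
  set q := Fintype.card B with hq
  set e := (q ^ (d.length + 1) + 1) * (d.length + 1 + 1) with he
  set e' := (q ^ d.length + 1) * (d.length + 1) with he'
  have hcom : ∀ b, AG M (P d * P [b] * (P d)⁻¹ * (P [σ b])⁻¹) e := by
    intro b
    have h3 : pm M (d ++ [b]) = pm M (σ b :: d) := by
      rw [h1 (σ b), hσ]
    have h4 := AG_pm hA hC h3
    rw [P_append, P_cons (σ b) d] at h4
    have h5 : P d * P [b] * (P [σ b] * P d)⁻¹ = P d * P [b] * (P d)⁻¹ * (P [σ b])⁻¹ := by group
    rw [h5] at h4
    simpa only [List.length_append, List.length_singleton] using h4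
  have hvb : ∀ b, AG M (P d * (P [b] * P (v b))⁻¹) e' := by
    intro b
    have h4 := AG_pm hA hC (h2 b)
    rwa [P_cons b (v b)] at h4
  obtain ⟨vm, hvm⟩ : ∃ vm : ℕ, ∀ b, (v b).length ≤ vm := by
    refine ⟨∑ b, (v b).length, fun b => ?_⟩
    exact Finset.single_le_sum (f := fun b => (v b).length) (fun _ _ => Nat.zero_le _)
      (Finset.mem_univ b)
  -- the cost of a step
  set S : ℕ → ℕ := fun N => (e' + (N + 1) * d.length + 1) + vm * ((N + 1) * (e + (N + 1) * d.length) + 1) +
    (N + 1) * (e + (N + 1) * d.length) + vm + 1 with hS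
  have hEk : ∀ (k N : ℕ), k ≤ N + 1 → ∀ b,
      AG M (P d ^ k * P [b] * (P d ^ k)⁻¹ * (P [σ^[k] b])⁻¹)
        ((N + 1) * (e + (N + 1) * d.length)) := fun k N hk b =>
    AG_mono hA (AG_E hA d σ e hcom k b)
      (Nat.mul_le_mul hk (Nat.add_le_add_left (Nat.mul_le_mul_right _ hk) _))
  have hmain : ∀ (N : ℕ) (w : List (B × Bool)), w.length ≤ N → ∃ (p : List B) (k : ℕ),
      k ≤ w.length ∧ AG M (P d ^ k * FreeGroup.mk w * (P p)⁻¹) (w.length * S N) := by
    intro N w
    induction w with
    | nil =>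
      intro _
      refine ⟨[], 0, le_rfl, ?_⟩
      have : P d ^ 0 * FreeGroup.mk ([] : List (B × Bool)) * (P ([] : List B))⁻¹ = 1 := by
        rw [P_nil, pow_zero, inv_one, mul_one, one_mul]
        rfl
      rw [this]
      exact AG_mono hA AG_one (Nat.zero_le _)
    | cons a w ih =>
      intro hN
      rw [List.length_cons] at hN
      obtain ⟨p, k, hk, hp⟩ := ih (by omega)
      obtain ⟨b, s⟩ := a
      have hcons : FreeGroup.mk ((b, s) :: w) = FreeGroup.mk [(b, s)] * FreeGroup.mk w :=
        mk_append [(b, s)] w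
      cases s
      · -- a negative letter
        refine ⟨(v b).map (σ^[k + 1]) ++ p, k + 1, by rw [List.length_cons]; omega, ?_⟩
        have hb : FreeGroup.mk [(b, false)] = (P [b])⁻¹ := by
          rw [P, FreeGroup.inv_mk]
          rfl
        -- b⁻¹ d V⁻¹
        have h3 : AG M ((P [b])⁻¹ * P d * (P (v b))⁻¹) (e' + 1) := by
          have h4 := AG_conj hA [(b, false)] (hvb b)
          rw [hb] at h4
          have h5 : (P [b])⁻¹ * (P d * (P [b] * P (v b))⁻¹) * ((P [b])⁻¹)⁻¹ =
              (P [b])⁻¹ * P d * (P (v b))⁻¹ := by group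
          rw [h5] at h4
          exact h4
        have h4 := AG_conjP hA (List.replicate (k + 1) d).flatten h3
        rw [P_rep, rep_len] at h4
        have h5 := AG_V hA (P d ^ (k + 1)) (σ^[k + 1]) _ (hEk (k + 1) N (by omega)) (v b)
        have h6 := AG_conjP hA ((v b).map (σ^[k + 1])) hp
        have h7 := AG_mul hA (AG_mul hA h4 h5) h6
        have h8 : P d ^ (k + 1) * ((P [b])⁻¹ * P d * (P (v b))⁻¹) * (P d ^ (k + 1))⁻¹ *
            (P d ^ (k + 1) * P (v b) * (P d ^ (k + 1))⁻¹ * (P ((v b).map (σ^[k + 1])))⁻¹) *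
            (P ((v b).map (σ^[k + 1])) * (P d ^ k * FreeGroup.mk w * (P p)⁻¹) *
              (P ((v b).map (σ^[k + 1])))⁻¹) =
            P d ^ (k + 1) * FreeGroup.mk ((b, false) :: w) *
              (P ((v b).map (σ^[k + 1]) ++ p))⁻¹ := by
          rw [hcons, hb, P_append, pow_succ]
          generalize P d ^ k = X
          group
        rw [h8] at h7
        refine AG_mono hA h7 ?_
        have h12 : (w.length + 1) * S N = w.length * S N + S N := by ring
        have hSN : S N = (e' + (N + 1) * d.length + 1) +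
          vm * ((N + 1) * (e + (N + 1) * d.length) + 1) +
          (N + 1) * (e + (N + 1) * d.length) + vm + 1 := rfl
        rw [List.length_cons, List.length_map, h12]
        have h9 : (k + 1) * d.length ≤ (N + 1) * d.length := Nat.mul_le_mul_right _ (by omega)
        have h10 : (v b).length * ((N + 1) * (e + (N + 1) * d.length) + 1) ≤
            vm * ((N + 1) * (e + (N + 1) * d.length) + 1) := Nat.mul_le_mul_right _ (hvm b)
        have h11 := hvm b
        omega
      · -- a positive letter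
        refine ⟨σ^[k] b :: p, k, by rw [List.length_cons]; omega, ?_⟩
        have hb : FreeGroup.mk [(b, true)] = P [b] := rfl
        have h3 := hEk k N (by omega) b
        have h4 := AG_conjP hA [σ^[k] b] hp
        have h5 := AG_mul hA h3 h4
        have h6 : P d ^ k * P [b] * (P d ^ k)⁻¹ * (P [σ^[k] b])⁻¹ *
            (P [σ^[k] b] * (P d ^ k * FreeGroup.mk w * (P p)⁻¹) * (P [σ^[k] b])⁻¹) =
            P d ^ k * FreeGroup.mk ((b, true) :: w) * (P (σ^[k] b :: p))⁻¹ := by
          rw [hcons, hb, P_cons (σ^[k] b) p]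
          generalize P d ^ k = X
          group
        rw [h6] at h5
        refine AG_mono hA h5 ?_
        have h12 : (w.length + 1) * S N = w.length * S N + S N := by ring
        have hSN : S N = (e' + (N + 1) * d.length + 1) +
          vm * ((N + 1) * (e + (N + 1) * d.length) + 1) +
          (N + 1) * (e + (N + 1) * d.length) + vm + 1 := rfl
        simp only [List.length_cons, List.length_nil]
        rw [h12]
        omega
  -- the last step
  set T : ℕ → ℕ := fun n => n * S n + ((q ^ (n * d.length) + 1) * (n * d.length + 1)) +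
    n * d.length with hT
  have hEb : Eb T := by
    have hn : Eb fun n : ℕ => n := Eb.id
    have hn1 : Eb fun n : ℕ => n + 1 := hn.add (Eb.const 1)
    have hnd : Eb fun n : ℕ => n * d.length := hn.mul (Eb.const _)
    have hn1d : Eb fun n : ℕ => (n + 1) * d.length := hn1.mul (Eb.const _)
    have hE1 : Eb fun n : ℕ => (n + 1) * (e + (n + 1) * d.length) :=
      hn1.mul ((Eb.const e).add hn1d)
    have hSb : Eb S := by
      simp only [hS]
      exact (((((((Eb.const e').add hn1d).add (Eb.const 1)).add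
        ((Eb.const vm).mul (hE1.add (Eb.const 1)))).add hE1).add (Eb.const vm)).add (Eb.const 1))
    simp only [hT]
    exact ((hn.mul hSb).add (((Eb.exp q d.length).add (Eb.const 1)).mul
      (hnd.add (Eb.const 1)))).add hnd
  obtain ⟨K, hK⟩ := hEb
  refine ⟨K, fun w hw => ?_⟩
  obtain ⟨p, k, hk, hp⟩ := hmain w.length w le_rfl
  have hlval : lval M w = (lval M ([] : List (B × Bool))) := by rw [hw]; rfl
  -- the positive words are equal in the Artin group
  have hpos : ∀ l : List B, lval M (l.map fun x => (x, true)) = (l.map (g M)).prod := by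
    intro l
    unfold lval
    rw [List.map_map]
    rfl
  have hla : ∀ w w' : List (B × Bool), lval M (w ++ w') = lval M w * lval M w' := by
    intro w w'
    unfold lval
    rw [List.map_append, List.prod_append]
  have heq : pm M (List.replicate k d).flatten = pm M p := by
    apply hE B M hfin
    have h3 : FreeGroup.mk (((List.replicate k d).flatten.map fun x => (x, true)) ++ w ++
        inw (p.map fun x => (x, true))) = P d ^ k * FreeGroup.mk w * (P p)⁻¹ := by
      rw [mk_append, mk_append, mk_inw, ← P_rep]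
      rfl
    have h4 := AG_mulE hA _ hp h3.symm
    have h5 : lval M ((((List.replicate k d).flatten.map fun x => (x, true)) ++ w ++
        inw (p.map fun x => (x, true))) ++ (p.map fun x => (x, true))) =
        lval M (p.map fun x => (x, true)) := by rw [hla, h4, one_mul]
    have h6 : ∀ w : List (B × Bool), lval M (inw w) * lval M w = 1 := by
      intro w
      have h7 : Area M (inw w ++ w) 0 := by
        refine ⟨[], by simp, by simp, ?_⟩
        rw [mk_append, mk_inw, inv_mul_cancel]
        rfl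
      rw [← hla]
      exact (hA B M).1 _ 0 h7
    rw [hla, hla, hla, mul_assoc, h6, mul_one, hw, mul_one, hpos, hpos] at h5
    exact h5
  have h3 := AG_pm hA hC heq
  rw [rep_len, P_rep, ← hq] at h3
  have h4 := AG_mul hA hp (AG_inv hA h3)
  have h5 := AG_conj hA (inw ((List.replicate k d).flatten.map fun x => (x, true))) h4
  rw [mk_inw] at h5
  have h6 : FreeGroup.mk ((List.replicate k d).flatten.map fun x => (x, true)) = P d ^ k :=
    P_rep d k
  have h7 : (P d ^ k)⁻¹ * (P d ^ k * FreeGroup.mk w * (P p)⁻¹ * (P d ^ k * (P p)⁻¹)⁻¹) *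
      ((P d ^ k)⁻¹)⁻¹ = FreeGroup.mk w := by
    generalize P d ^ k = X
    group
  rw [h6, h7] at h5
  have h8 : (inw ((List.replicate k d).flatten.map fun x => (x, true))).length = k * d.length := by
    simp [inw]
  rw [h8] at h5
  have h9 := AG_mono hA h5 (N' := T w.length) (by
    simp only [hT]
    have h10 : k * d.length ≤ w.length * d.length := Nat.mul_le_mul_right _ hk
    have h11 : (q ^ (k * d.length) + 1) * (k * d.length + 1) ≤
        (q ^ (w.length * d.length) + 1) * (w.length * d.length + 1) := by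
      apply Nat.mul_le_mul _ (by omega)
      rcases Nat.eq_zero_or_pos q with hq0 | hq0
      · -- no generators
        have : d = [] := by
          rw [hq, Fintype.card_eq_zero_iff] at hq0
          rcases d with _ | ⟨x, _⟩
          · rfl
          · exact (hq0.false x).elim
        rw [this]
        simp
      · exact Nat.add_le_add_right (Nat.pow_le_pow_right hq0 h10) 1
    omega)
  exact (hA B M).2.1 w _ _ (hK w.length) (AG_area hA h9)

end Pool.Agent.L0h37.AL
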